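import Mathlib

/-!
# Compact operators from `ℓ₁`-preduals with the BPBp-RSE

If `X* ≡ ℓ₁` and the compact operators from `X` to `Y` have the BPBp-RSE, then `Y` is uniformly
convex (real case), respectively `ℂ`-uniformly convex (complex case).

Let `f n` be the functionals corresponding to the unit vectors of `ℓ₁`. Every `x` has
`|f n x| = ‖x‖` for some `n`, so by Baire's theorem there are `j` and a ball on which
`|f j x| = ‖x‖`. Around points `x₀` of the sphere in this ball the unit sphere is flat in the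
directions of `ker (f j)`, so a range strongly exposing operator attaining its norm at `x₀`
vanishes on `ker (f j)`; it cannot be close to `f j ⊗ a + f i ⊗ b`.
-/

set_option autoImplicit false

namespace Pool.Agent.Results.MP_88a444_an.UniformConvexity

open Filter Topology Metric

universe u v

section Defs

variable (𝕜 : Type) [RCLike 𝕜]
variable {X : Type u} [NormedAddCommGroup X] [NormedSpace 𝕜 X]
variable {Y : Type v} [NormedAddCommGroup Y] [NormedSpace 𝕜 Y]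

/-- `T` is range strongly exposing. -/
def IsRSE (T : X →L[𝕜] Y) : Prop :=
  ∃ x₀ : X, ‖x₀‖ = 1 ∧ ∀ x : ℕ → X, (∀ n, ‖x n‖ ≤ 1) →
    Tendsto (fun n => ‖T (x n)‖) atTop (𝓝 ‖T‖) →
    ∃ σ : ℕ → ℕ, StrictMono σ ∧ ∃ c : 𝕜, ‖c‖ = 1 ∧
      Tendsto (fun n => T (x (σ n))) atTop (𝓝 (c • T x₀))

variable (X Y)

/-- The space `K(X, Y)` of compact operators has the BPBp-RSE. -/
def CompactBPBpRSE : Prop :=
  ∀ ε : ℝ, 0 < ε → ∃ η : ℝ, 0 < η ∧ η < ε ∧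
    ∀ T : X →L[𝕜] Y, IsCompactOperator T → ‖T‖ = 1 → ∀ x : X, ‖x‖ = 1 → 1 - η < ‖T x‖ →
      ∃ (S : X →L[𝕜] Y) (x₀ : X), IsRSE 𝕜 S ∧ IsCompactOperator S ∧ ‖x₀‖ = 1 ∧ ‖S‖ = 1 ∧
        ‖S x₀‖ = 1 ∧ ‖S - T‖ < ε ∧ ‖x - x₀‖ < ε

/-- `X` is an `ℓ₁`-predual: its dual is isometrically isomorphic to `ℓ₁`. -/
def IsEllOnePredual : Prop :=
  Nonempty (lp (fun _ : ℕ => 𝕜) 1 ≃ₗᵢ[𝕜] (X →L[𝕜] 𝕜))

end Defs

/-- Uniform convexity of a real Banach space. -/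
def IsUniformlyConvex (Y : Type v) [NormedAddCommGroup Y] [NormedSpace ℝ Y] : Prop :=
  ∀ ε : ℝ, 0 < ε → ∃ δ : ℝ, 0 < δ ∧ δ < 1 ∧
    ∀ y₁ y₂ : Y, ‖y₁‖ = 1 → ‖y₂‖ = 1 → 1 - δ < ‖y₁ + y₂‖ / 2 → ‖y₁ - y₂‖ < ε

/-- `ℂ`-uniform convexity of a complex Banach space. -/
def IsComplexUniformlyConvex (Y : Type v) [NormedAddCommGroup Y] [NormedSpace ℂ Y] : Prop :=
  ∀ ε : ℝ, 0 < ε → ∃ δ : ℝ, 0 < δ ∧
    ∀ y₀ y₁ : Y, (∀ w : ℂ, ‖w‖ = 1 → ‖y₀ + w • y₁‖ ≤ 1) → ε < ‖y₁‖ → ‖y₀‖ < 1 - δ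

section Main

variable {𝕜 : Type} [RCLike 𝕜]
variable {X : Type u} [NormedAddCommGroup X] [NormedSpace 𝕜 X]
variable {Y : Type v} [NormedAddCommGroup Y] [NormedSpace 𝕜 Y]

/-- The functional corresponding to the `n`-th unit vector. -/
noncomputable def f (Φ : lp (fun _ : ℕ => 𝕜) 1 ≃ₗᵢ[𝕜] (X →L[𝕜] 𝕜)) (n : ℕ) : X →L[𝕜] 𝕜 :=
  Φ (lp.single 1 n (1 : 𝕜))

theorem norm_f (Φ : lp (fun _ : ℕ => 𝕜) 1 ≃ₗᵢ[𝕜] (X →L[𝕜] 𝕜)) (n : ℕ) : ‖f Φ n‖ = 1 := by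
  unfold f
  rw [LinearIsometryEquiv.norm_map, lp.norm_single (by norm_num), norm_one]

theorem norm_f_apply_le (Φ : lp (fun _ : ℕ => 𝕜) 1 ≃ₗᵢ[𝕜] (X →L[𝕜] 𝕜)) (n : ℕ) (x : X) :
    ‖f Φ n x‖ ≤ ‖x‖ := by
  have := (f Φ n).le_opNorm x
  rwa [norm_f, one_mul] at this

theorem exists_norming (Φ : lp (fun _ : ℕ => 𝕜) 1 ≃ₗᵢ[𝕜] (X →L[𝕜] 𝕜)) (x : X) :
    ∃ n, ‖f Φ n x‖ = ‖x‖ := by
  by_contra hcon
  push Not at hcon
  have hlt : ∀ n, ‖f Φ n x‖ < ‖x‖ := fun n => lt_of_le_of_ne (norm_f_apply_le Φ n x) (hcon n)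
  have hx : x ≠ 0 := by
    rintro rfl
    have := hlt 0
    simp at this
  obtain ⟨g, hg, hgx⟩ := exists_dual_vector 𝕜 x (norm_ne_zero_iff.2 hx)
  set a := Φ.symm g with ha
  have hna : ‖a‖ = 1 := by rw [ha, LinearIsometryEquiv.norm_map, hg]
  have hsum1 : HasSum (fun n => ‖a n‖) ‖a‖ := by
    have := lp.hasSum_norm (p := 1) (by norm_num) a
    simpa using this
  have hsum2 : HasSum (fun n => a n • f Φ n x) (g x) := by
    have h1 : HasSum (fun n => lp.single 1 n (a n)) a := lp.hasSum_single (by norm_num) a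
    have h2 := Φ.toContinuousLinearEquiv.toContinuousLinearMap.hasSum h1
    have h3 := (ContinuousLinearMap.apply 𝕜 𝕜 x).hasSum h2
    have h4 : (ContinuousLinearMap.apply 𝕜 𝕜 x)
        (Φ.toContinuousLinearEquiv.toContinuousLinearMap a) = g x := by
      simp [ha]
    rw [h4] at h3
    have h5 : (fun n => a n • f Φ n x) = fun n => (ContinuousLinearMap.apply 𝕜 𝕜 x)
        (Φ.toContinuousLinearEquiv.toContinuousLinearMap (lp.single 1 n (a n))) := by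
      funext n
      have h6 : lp.single (E := fun _ : ℕ => 𝕜) 1 n (a n) = a n • lp.single 1 n (1 : 𝕜) := by
        rw [← lp.single_smul, smul_eq_mul, mul_one]
      rw [h6, map_smul, map_smul]
      rfl
    rw [h5]
    exact h3
  obtain ⟨m, hm⟩ : ∃ m, a m ≠ 0 := by
    by_contra h
    push Not at h
    have : a = 0 := lp.ext (funext h)
    rw [this, norm_zero] at hna
    exact zero_ne_one hna
  have hs1 : Summable fun n => ‖a n‖ * ‖x‖ := hsum1.summable.mul_right _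
  have hs2 : Summable fun n => ‖a n • f Φ n x‖ := by
    refine Summable.of_nonneg_of_le (fun n => norm_nonneg _) (fun n => ?_) hs1
    rw [norm_smul]
    gcongr
    exact norm_f_apply_le Φ n x
  have h1 : ‖x‖ ≤ ∑' n, ‖a n • f Φ n x‖ := by
    have h2 : ‖g x‖ = ‖x‖ := by rw [hgx]; simp
    rw [← h2, ← hsum2.tsum_eq]
    exact norm_tsum_le_tsum_norm hs2
  have h2 : ∑' n, ‖a n • f Φ n x‖ < ∑' n, ‖a n‖ * ‖x‖ := by
    refine Summable.tsum_lt_tsum (i := m) (fun n => ?_) ?_ hs2 hs1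
    · rw [norm_smul]
      gcongr
      exact norm_f_apply_le Φ n x
    · rw [norm_smul]
      exact mul_lt_mul_of_pos_left (hlt m) (norm_pos_iff.2 hm)
  rw [tsum_mul_right, hsum1.tsum_eq, hna, one_mul] at h2
  linarith

/-- The restriction of `f i` to the kernel of `f j` has norm one. -/
theorem one_le_of_ker (Φ : lp (fun _ : ℕ => 𝕜) 1 ≃ₗᵢ[𝕜] (X →L[𝕜] 𝕜)) {i j : ℕ} (hij : i ≠ j)
    {K : ℝ} (hK : 0 ≤ K) (h : ∀ x : X, f Φ j x = 0 → ‖f Φ i x‖ ≤ K * ‖x‖) : 1 ≤ K := by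
  set p : Submodule 𝕜 X := LinearMap.ker (f Φ j : X →ₗ[𝕜] 𝕜) with hp
  obtain ⟨G, hG, hGn⟩ := exists_extension_norm_eq p ((f Φ i).comp p.subtypeL)
  have h1 : ‖(f Φ i).comp p.subtypeL‖ ≤ K := by
    refine ContinuousLinearMap.opNorm_le_bound _ hK fun x => ?_
    exact h x x.2
  obtain ⟨u, hu⟩ : ∃ u, f Φ j u = 1 := by
    have h2 : f Φ j ≠ 0 := by
      intro h3
      have := norm_f Φ j
      rw [h3, norm_zero] at this
      exact zero_ne_one this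
    obtain ⟨v, hv⟩ : ∃ v, f Φ j v ≠ 0 := by
      by_contra h3
      push Not at h3
      exact h2 (ContinuousLinearMap.ext h3)
    exact ⟨(f Φ j v)⁻¹ • v, by rw [map_smul, smul_eq_mul, inv_mul_cancel₀ hv]⟩
  set c : 𝕜 := G u - f Φ i u with hc
  have h2 : G = f Φ i + c • f Φ j := by
    ext x
    have h3 : x - f Φ j x • u ∈ p := by
      rw [hp, LinearMap.mem_ker]
      simp [hu]
    have h4 := hG ⟨x - f Φ j x • u, h3⟩
    simp only [ContinuousLinearMap.comp_apply, Submodule.subtypeL_apply, map_sub, map_smul,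
      smul_eq_mul] at h4
    simp only [add_apply, smul_apply, smul_eq_mul, hc]
    linear_combination h4
  have h3 : G = Φ (lp.single 1 i (1 : 𝕜) + c • lp.single 1 j (1 : 𝕜)) := by
    rw [h2, map_add, map_smul]; rfl
  have h4 : ‖G‖ = ‖lp.single (E := fun _ : ℕ => 𝕜) 1 i (1 : 𝕜) + c • lp.single 1 j (1 : 𝕜)‖ := by
    rw [h3, LinearIsometryEquiv.norm_map]
  have h5 : (1 : ℝ) ≤ ‖G‖ := by
    rw [h4]
    set q : lp (fun _ : ℕ => 𝕜) 1 :=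
      lp.single (E := fun _ : ℕ => 𝕜) 1 i (1 : 𝕜) + c • lp.single 1 j (1 : 𝕜) with hq
    have h6 := lp.norm_apply_le_norm (p := 1) (by norm_num) q i
    have h7 : q i = (1 : 𝕜) := by
      have h8 : q i = (lp.single (E := fun _ : ℕ => 𝕜) 1 i (1 : 𝕜) : ∀ _ : ℕ, 𝕜) i +
          c • (lp.single (E := fun _ : ℕ => 𝕜) 1 j (1 : 𝕜) : ∀ _ : ℕ, 𝕜) i := rfl
      rw [h8, lp.single_apply_self, lp.single_apply_ne _ _ _ hij, smul_zero, add_zero]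
    rw [h7, norm_one] at h6
    exact h6
  rw [hGn] at h5
  exact h5.trans h1

/-- On a ball around a point of the unit sphere the norm is the modulus of one functional. -/
theorem exists_ball [CompleteSpace X] (Φ : lp (fun _ : ℕ => 𝕜) 1 ≃ₗᵢ[𝕜] (X →L[𝕜] 𝕜)) :
    ∃ (j : ℕ) (x₁ : X) (r : ℝ), ‖x₁‖ = 1 ∧ 0 < r ∧ ∀ x, ‖x - x₁‖ < r → ‖f Φ j x‖ = ‖x‖ := by
  have hclosed : ∀ n, IsClosed {x : X | ‖f Φ n x‖ = ‖x‖} := fun n =>
    isClosed_eq ((f Φ n).continuous.norm) continuous_norm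
  have hunion : ⋃ n, {x : X | ‖f Φ n x‖ = ‖x‖} = Set.univ := by
    ext x
    simp only [Set.mem_iUnion, Set.mem_univ, iff_true]
    exact exists_norming Φ x
  obtain ⟨j, y, hy⟩ := nonempty_interior_of_iUnion_of_closed hclosed hunion
  rw [mem_interior_iff_mem_nhds, Metric.mem_nhds_iff] at hy
  obtain ⟨r, hr, hball⟩ := hy
  have hmem : ∀ x, ‖x - y‖ < r → ‖f Φ j x‖ = ‖x‖ := fun x hx =>
    hball (by rwa [Metric.mem_ball, dist_eq_norm])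
  -- a nonzero point of the ball
  obtain ⟨z, hz, hzy⟩ : ∃ z : X, z ≠ 0 ∧ ‖z - y‖ < r / 2 := by
    by_cases h0 : y = 0
    · obtain ⟨v, hv⟩ : ∃ v : X, v ≠ 0 := by
        by_contra h3
        push Not at h3
        have h4 : f Φ 0 = 0 := by
          ext x; rw [h3 x]; simp
        have := norm_f Φ 0
        rw [h4, norm_zero] at this
        exact zero_ne_one this
      have hv' : 0 < ‖v‖ := norm_pos_iff.2 hv
      refine ⟨((r / (4 * ‖v‖) : ℝ) : 𝕜) • v, ?_, ?_⟩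
      · refine smul_ne_zero ?_ hv
        rw [Ne, RCLike.ofReal_eq_zero]
        positivity
      · rw [h0, sub_zero, norm_smul, RCLike.norm_ofReal, abs_of_pos (by positivity)]
        have : r / (4 * ‖v‖) * ‖v‖ = r / 4 := by field_simp
        rw [this]; linarith
    · exact ⟨y, h0, by simpa using hr⟩
  have hz' : 0 < ‖z‖ := norm_pos_iff.2 hz
  refine ⟨j, ((‖z‖⁻¹ : ℝ) : 𝕜) • z, r / 2 / ‖z‖, ?_, by positivity, ?_⟩
  · rw [norm_smul, RCLike.norm_ofReal, abs_of_pos (by positivity), inv_mul_cancel₀ hz'.ne']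
  · intro x hx
    have h1 : ‖((‖z‖ : ℝ) : 𝕜) • x - y‖ < r := by
      have h2 : ((‖z‖ : ℝ) : 𝕜) • x - z = ((‖z‖ : ℝ) : 𝕜) • (x - ((‖z‖⁻¹ : ℝ) : 𝕜) • z) := by
        rw [smul_sub, smul_smul, ← RCLike.ofReal_mul, mul_inv_cancel₀ hz'.ne', RCLike.ofReal_one,
          one_smul]
      have h3 : ‖((‖z‖ : ℝ) : 𝕜) • x - z‖ < r / 2 := by
        rw [h2, norm_smul, RCLike.norm_ofReal, abs_of_pos hz']
        calc ‖z‖ * ‖x - ((‖z‖⁻¹ : ℝ) : 𝕜) • z‖ < ‖z‖ * (r / 2 / ‖z‖) :=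
              mul_lt_mul_of_pos_left hx hz'
          _ = r / 2 := by field_simp
      calc ‖((‖z‖ : ℝ) : 𝕜) • x - y‖ = ‖(((‖z‖ : ℝ) : 𝕜) • x - z) + (z - y)‖ := by congr 1; abel
        _ ≤ _ := norm_add_le _ _
        _ < r := by linarith
    have h2 := hmem _ h1
    rw [map_smul, norm_smul, norm_smul, RCLike.norm_ofReal, abs_of_pos hz'] at h2
    exact mul_left_cancel₀ hz'.ne' h2

/-- The operator `f j ⊗ a + f i ⊗ b`. -/
noncomputable def Top (Φ : lp (fun _ : ℕ => 𝕜) 1 ≃ₗᵢ[𝕜] (X →L[𝕜] 𝕜)) (i j : ℕ) (a b : Y) :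
    X →L[𝕜] Y :=
  (f Φ j).smulRight a + (f Φ i).smulRight b

theorem Top_apply (Φ : lp (fun _ : ℕ => 𝕜) 1 ≃ₗᵢ[𝕜] (X →L[𝕜] 𝕜)) (i j : ℕ) (a b : Y) (x : X) :
    Top Φ i j a b x = f Φ j x • a + f Φ i x • b := rfl

theorem isCompactOperator_rank_one (g : X →L[𝕜] 𝕜) (a : Y) :
    IsCompactOperator (g.smulRight a) := by
  have h1 : IsCompactOperator (g : X → 𝕜) :=
    isCompactOperator_of_locallyCompactSpace_dom g
  have h2 := h1.clm_comp (ContinuousLinearMap.toSpanSingleton 𝕜 a)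
  exact h2

theorem isCompactOperator_Top (Φ : lp (fun _ : ℕ => 𝕜) 1 ≃ₗᵢ[𝕜] (X →L[𝕜] 𝕜)) (i j : ℕ) (a b : Y) :
    IsCompactOperator (Top Φ i j a b) :=
  (isCompactOperator_rank_one (f Φ j) a).add (isCompactOperator_rank_one (f Φ i) b)

theorem box {a b : Y} (hab : ∀ w : 𝕜, ‖w‖ ≤ 1 → ‖a + w • b‖ ≤ 1) {s t : 𝕜} (hs : ‖s‖ ≤ 1)
    (ht : ‖t‖ ≤ 1) : ‖s • a + t • b‖ ≤ 1 := by
  have h1 : ∀ u : 𝕜, ‖u‖ = 1 → ‖u • a + t • b‖ ≤ 1 := by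
    intro u hu
    have hu0 : u ≠ 0 := by
      intro h; rw [h, norm_zero] at hu; exact zero_ne_one hu
    have h2 : u • a + t • b = u • (a + (u⁻¹ * t) • b) := by
      rw [smul_add, smul_smul, ← mul_assoc, mul_inv_cancel₀ hu0, one_mul]
    rw [h2, norm_smul, hu, one_mul]
    apply hab
    rw [norm_mul, norm_inv, hu, inv_one, one_mul]
    exact ht
  obtain ⟨u, hu, hsu⟩ : ∃ u : 𝕜, ‖u‖ = 1 ∧ s = ((‖s‖ : ℝ) : 𝕜) * u := by
    by_cases h0 : s = 0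
    · exact ⟨1, norm_one, by rw [h0]; simp⟩
    · have h0' : ‖s‖ ≠ 0 := norm_ne_zero_iff.2 h0
      have h0'' : ((‖s‖ : ℝ) : 𝕜) ≠ 0 := by rwa [Ne, RCLike.ofReal_eq_zero]
      refine ⟨((‖s‖ : ℝ) : 𝕜)⁻¹ * s, ?_, ?_⟩
      · rw [norm_mul, norm_inv, RCLike.norm_ofReal, abs_norm, inv_mul_cancel₀ h0']
      · rw [← mul_assoc, mul_inv_cancel₀ h0'', one_mul]
  have h3 : s • a + t • b = (((1 + ‖s‖) / 2 : ℝ) : 𝕜) • (u • a + t • b) +
      (((1 - ‖s‖) / 2 : ℝ) : 𝕜) • ((-u) • a + t • b) := by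
    have h4 : ((((1 + ‖s‖) / 2 : ℝ) : 𝕜) + (((1 - ‖s‖) / 2 : ℝ) : 𝕜)) = 1 := by
      rw [← RCLike.ofReal_add]
      have : (1 + ‖s‖) / 2 + (1 - ‖s‖) / 2 = 1 := by ring
      rw [this, RCLike.ofReal_one]
    have h5 : ((((1 + ‖s‖) / 2 : ℝ) : 𝕜) - (((1 - ‖s‖) / 2 : ℝ) : 𝕜)) = ((‖s‖ : ℝ) : 𝕜) := by
      rw [← RCLike.ofReal_sub]
      congr 1
      ring
    calc s • a + t • b = (((‖s‖ : ℝ) : 𝕜) * u) • a + (1 : 𝕜) • t • b := by rw [← hsu, one_smul]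
      _ = _ := by
        rw [← h4, ← h5]
        module
  rw [h3]
  have h6 : ‖(-u) • a + t • b‖ ≤ 1 := h1 (-u) (by rw [norm_neg, hu])
  have hn := norm_nonneg s
  calc ‖(((1 + ‖s‖) / 2 : ℝ) : 𝕜) • (u • a + t • b) +
        (((1 - ‖s‖) / 2 : ℝ) : 𝕜) • ((-u) • a + t • b)‖
      ≤ ‖(((1 + ‖s‖) / 2 : ℝ) : 𝕜) • (u • a + t • b)‖ +
        ‖(((1 - ‖s‖) / 2 : ℝ) : 𝕜) • ((-u) • a + t • b)‖ := norm_add_le _ _
    _ = (1 + ‖s‖) / 2 * ‖u • a + t • b‖ + (1 - ‖s‖) / 2 * ‖(-u) • a + t • b‖ := by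
        rw [norm_smul, norm_smul, RCLike.norm_ofReal, RCLike.norm_ofReal, abs_of_nonneg,
          abs_of_nonneg] <;> linarith
    _ ≤ (1 + ‖s‖) / 2 * 1 + (1 - ‖s‖) / 2 * 1 := by
        gcongr
        exact h1 u hu
    _ = 1 := by ring

theorem norm_Top_le (Φ : lp (fun _ : ℕ => 𝕜) 1 ≃ₗᵢ[𝕜] (X →L[𝕜] 𝕜)) (i j : ℕ) {a b : Y}
    (hab : ∀ w : 𝕜, ‖w‖ ≤ 1 → ‖a + w • b‖ ≤ 1) : ‖Top Φ i j a b‖ ≤ 1 := by
  refine ContinuousLinearMap.opNorm_le_bound _ zero_le_one fun x => ?_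
  by_cases hx : x = 0
  · rw [hx]; simp
  · have hx' : 0 < ‖x‖ := norm_pos_iff.2 hx
    have h1 : x = ((‖x‖ : ℝ) : 𝕜) • (((‖x‖⁻¹ : ℝ) : 𝕜) • x) := by
      rw [smul_smul, ← RCLike.ofReal_mul, mul_inv_cancel₀ hx'.ne', RCLike.ofReal_one, one_smul]
    have h2 : ‖(((‖x‖⁻¹ : ℝ) : 𝕜) • x)‖ = 1 := by
      rw [norm_smul, RCLike.norm_ofReal, abs_of_pos (by positivity), inv_mul_cancel₀ hx'.ne']
    have h3 : ‖Top Φ i j a b (((‖x‖⁻¹ : ℝ) : 𝕜) • x)‖ ≤ 1 := by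
      rw [Top_apply]
      refine box hab ?_ ?_
      · exact (norm_f_apply_le Φ j _).trans h2.le
      · exact (norm_f_apply_le Φ i _).trans h2.le
    calc ‖Top Φ i j a b x‖ = ‖((‖x‖ : ℝ) : 𝕜) • Top Φ i j a b (((‖x‖⁻¹ : ℝ) : 𝕜) • x)‖ := by
          rw [← map_smul, ← h1]
      _ = ‖x‖ * ‖Top Φ i j a b (((‖x‖⁻¹ : ℝ) : 𝕜) • x)‖ := by
          rw [norm_smul, RCLike.norm_ofReal, abs_of_pos hx']
      _ ≤ ‖x‖ * 1 := by gcongr
      _ = 1 * ‖x‖ := by ring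

theorem unimodular_eq {c₀ c₁ c₂ : 𝕜} (h0 : ‖c₀‖ = 1) (h1 : ‖c₁‖ = 1) (h2 : ‖c₂‖ = 1)
    (h : c₁ + c₂ = 2 * c₀) : c₁ = c₀ := by
  have hp := parallelogram_law_with_norm 𝕜 c₁ c₂
  have h3 : ‖c₁ + c₂‖ = 2 := by
    rw [h, norm_mul, h0, mul_one, RCLike.norm_two]
  rw [h3, h1, h2] at hp
  have h4 : ‖c₁ - c₂‖ * ‖c₁ - c₂‖ = 0 := by linarith
  have h5 : c₁ - c₂ = 0 := norm_eq_zero.1 (mul_self_eq_zero.1 h4)
  have h6 : (2 : 𝕜) ≠ 0 := two_ne_zero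
  have h7 : 2 * c₁ = 2 * c₀ := by
    rw [← h]
    linear_combination h5
  exact mul_left_cancel₀ h6 h7

/-- A range strongly exposing operator of norm one vanishes on the directions in which the unit
ball is flat at a point where it attains its norm. -/
theorem flat {S : X →L[𝕜] Y} (hS : IsRSE 𝕜 S) (hS1 : ‖S‖ = 1) {x₀ h : X} (hSx₀ : ‖S x₀‖ = 1)
    (hx₀ : ‖x₀‖ ≤ 1) (hp : ‖x₀ + h‖ ≤ 1) (hm : ‖x₀ - h‖ ≤ 1) : S h = 0 := by
  obtain ⟨z, hz, H⟩ := hS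
  have hconst : ∀ y : X, ‖y‖ ≤ 1 → ‖S y‖ = 1 → ∃ c : 𝕜, ‖c‖ = 1 ∧ S y = c • S z := by
    intro y hy hSy
    obtain ⟨σ, -, c, hc, hlim⟩ := H (fun _ => y) (fun _ => hy) (by
      rw [hS1]
      simp only [hSy]
      exact tendsto_const_nhds)
    exact ⟨c, hc, tendsto_nhds_unique tendsto_const_nhds hlim⟩
  have hle : ∀ y : X, ‖y‖ ≤ 1 → ‖S y‖ ≤ 1 := by
    intro y hy
    calc ‖S y‖ ≤ ‖S‖ * ‖y‖ := S.le_opNorm y
      _ ≤ 1 * 1 := by rw [hS1]; gcongr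
      _ = 1 := one_mul 1
  have hsum : S (x₀ + h) + S (x₀ - h) = (2 : 𝕜) • S x₀ := by
    rw [← map_add, ← map_smul]
    congr 1
    rw [two_smul]
    abel
  have h2 : 2 ≤ ‖S (x₀ + h)‖ + ‖S (x₀ - h)‖ := by
    calc (2 : ℝ) = ‖(2 : 𝕜) • S x₀‖ := by rw [norm_smul, hSx₀, RCLike.norm_two, mul_one]
      _ = ‖S (x₀ + h) + S (x₀ - h)‖ := by rw [hsum]
      _ ≤ _ := norm_add_le _ _
  have hp1 := hle _ hp
  have hm1 := hle _ hm
  obtain ⟨c₀, hc₀, e₀⟩ := hconst x₀ hx₀ hSx₀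
  obtain ⟨c₁, hc₁, e₁⟩ := hconst (x₀ + h) hp (by linarith)
  obtain ⟨c₂, hc₂, e₂⟩ := hconst (x₀ - h) hm (by linarith)
  have hz0 : S z ≠ 0 := by
    intro h0
    rw [e₀, h0, smul_zero, norm_zero] at hSx₀
    exact zero_ne_one hSx₀
  rw [e₀, e₁, e₂, smul_smul, ← add_smul] at hsum
  have h3 : c₁ + c₂ = 2 * c₀ := smul_left_injective 𝕜 hz0 hsum
  have h4 := unimodular_eq hc₀ hc₁ hc₂ h3
  have h5 : S h = S (x₀ + h) - S x₀ := by rw [map_add]; abel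
  rw [h5, e₀, e₁, h4, sub_self]

/-- The key fact. -/
theorem key [CompleteSpace X] (hX : IsEllOnePredual 𝕜 X) (h : CompactBPBpRSE 𝕜 X Y) :
    ∀ ε : ℝ, 0 < ε → ∃ δ : ℝ, 0 < δ ∧ δ < 1 ∧ ∀ a b : Y,
      (∀ w : 𝕜, ‖w‖ ≤ 1 → ‖a + w • b‖ ≤ 1) → ε ≤ ‖b‖ → ‖a‖ < 1 - δ := by
  obtain ⟨Φ⟩ := hX
  intro ε hε
  obtain ⟨j, x₁, r, hx₁, hr, hball⟩ := exists_ball Φ
  obtain ⟨i, hij⟩ : ∃ i : ℕ, i ≠ j := ⟨j + 1, by omega⟩
  obtain ⟨η, hη, hηε, H⟩ := h (min (min ε (r / 2)) 1) (by positivity)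
  have hη1 : η < 1 := hηε.trans_le (min_le_right _ _)
  refine ⟨η / 4, by positivity, by linarith, ?_⟩
  intro a b hab hb
  by_contra hcon
  push Not at hcon
  have hb0 : 0 < ‖b‖ := hε.trans_le hb
  set T : X →L[𝕜] Y := Top Φ i j a b with hT
  have hT1 : ‖T‖ ≤ 1 := norm_Top_le Φ i j hab
  have hTx₁ : 1 - η < ‖T x₁‖ := by
    have h1 : ‖f Φ j x₁‖ = 1 := by
      rw [hball x₁ (by simpa using hr), hx₁]
    have h2 : ‖f Φ i x₁‖ ≤ 1 := (norm_f_apply_le Φ i x₁).trans hx₁.le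
    have h3 : ‖f Φ j x₁ • a + (-f Φ i x₁) • b‖ ≤ 1 :=
      box hab h1.le (by rwa [norm_neg])
    have h4 : (2 : 𝕜) • (f Φ j x₁ • a) = T x₁ + (f Φ j x₁ • a + (-f Φ i x₁) • b) := by
      rw [hT, Top_apply, two_smul, neg_smul]
      abel
    have h5 : 2 * ‖a‖ ≤ ‖T x₁‖ + 1 := by
      calc 2 * ‖a‖ = ‖(2 : 𝕜) • (f Φ j x₁ • a)‖ := by
            rw [norm_smul, norm_smul, h1, RCLike.norm_two, one_mul]
        _ = ‖T x₁ + (f Φ j x₁ • a + (-f Φ i x₁) • b)‖ := by rw [h4]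
        _ ≤ ‖T x₁‖ + ‖f Φ j x₁ • a + (-f Φ i x₁) • b‖ := norm_add_le _ _
        _ ≤ ‖T x₁‖ + 1 := by gcongr
    linarith
  have hTx₁N : ‖T x₁‖ ≤ ‖T‖ := by
    have := T.le_opNorm x₁
    rwa [hx₁, mul_one] at this
  have hN : 0 < ‖T‖ := by linarith
  have hNinv : 1 ≤ ‖T‖⁻¹ := (one_le_inv₀ hN).2 hT1
  set T' : X →L[𝕜] Y := ((‖T‖⁻¹ : ℝ) : 𝕜) • T with hT'
  have hnormc : ‖((‖T‖⁻¹ : ℝ) : 𝕜)‖ = ‖T‖⁻¹ := by
    rw [RCLike.norm_ofReal, abs_of_pos (by positivity)]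
  have hT'1 : ‖T'‖ = 1 := by
    rw [hT', norm_smul, hnormc, inv_mul_cancel₀ hN.ne']
  have hT'c : IsCompactOperator T' := (isCompactOperator_Top Φ i j a b).smul _
  have hT'x₁ : 1 - η < ‖T' x₁‖ := by
    refine hTx₁.trans_le ?_
    have : ‖T' x₁‖ = ‖T‖⁻¹ * ‖T x₁‖ := by
      rw [hT', smul_apply, norm_smul, hnormc]
    rw [this]
    exact le_mul_of_one_le_left (norm_nonneg _) hNinv
  obtain ⟨S, x₀, hS, -, hx₀, hS1, hSx₀, hST, hxx⟩ := H T' hT'c hT'1 x₁ hx₁ hT'x₁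
  have hxx' : ‖x₀ - x₁‖ < r / 2 := by
    rw [norm_sub_rev]
    exact hxx.trans_le ((min_le_left _ _).trans (min_le_right _ _))
  -- the operator `S` vanishes on small vectors of the kernel
  have hsmall : ∀ v : X, f Φ j v = 0 → ‖v‖ < r / 2 → S v = 0 := by
    intro v hv hvr
    have h1 : ‖f Φ j x₀‖ = 1 := by
      rw [hball x₀ (by linarith), hx₀]
    have h2 : ‖x₀ + v‖ = 1 := by
      have h3 := hball (x₀ + v) (by
        calc ‖x₀ + v - x₁‖ = ‖(x₀ - x₁) + v‖ := by congr 1; abel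
          _ ≤ ‖x₀ - x₁‖ + ‖v‖ := norm_add_le _ _
          _ < r := by linarith)
      rw [← h3, map_add, hv, add_zero, h1]
    have h3 : ‖x₀ - v‖ = 1 := by
      have h3 := hball (x₀ - v) (by
        calc ‖x₀ - v - x₁‖ = ‖(x₀ - x₁) - v‖ := by congr 1; abel
          _ ≤ ‖x₀ - x₁‖ + ‖v‖ := norm_sub_le _ _
          _ < r := by linarith)
      rw [← h3, map_sub, hv, sub_zero, h1]
    exact flat hS hS1 hSx₀ hx₀.le h2.le h3.le
  have hker : ∀ v : X, f Φ j v = 0 → S v = 0 := by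
    intro v hv
    by_cases hv0 : v = 0
    · rw [hv0, map_zero]
    · have hv' : 0 < ‖v‖ := norm_pos_iff.2 hv0
      set c : 𝕜 := ((r / (4 * ‖v‖) : ℝ) : 𝕜) with hc
      have hc0 : c ≠ 0 := by
        rw [hc, Ne, RCLike.ofReal_eq_zero]
        positivity
      have h1 : S (c • v) = 0 := by
        refine hsmall _ (by rw [map_smul, hv, smul_zero]) ?_
        rw [norm_smul, hc, RCLike.norm_ofReal, abs_of_pos (by positivity)]
        have : r / (4 * ‖v‖) * ‖v‖ = r / 4 := by field_simp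
        rw [this]; linarith
      rw [map_smul] at h1
      exact (smul_eq_zero.1 h1).resolve_left hc0
  have hfinal : 1 ≤ ‖S - T'‖ * ‖T‖ / ‖b‖ := by
    refine one_le_of_ker Φ hij (by positivity) fun v hv => ?_
    have h1 : (S - T') v = -(((‖T‖⁻¹ : ℝ) : 𝕜) • (f Φ i v • b)) := by
      rw [sub_apply, hker v hv, hT', smul_apply, hT, Top_apply, hv, zero_smul, zero_add, zero_sub]
    have h2 : ‖T‖⁻¹ * (‖f Φ i v‖ * ‖b‖) ≤ ‖S - T'‖ * ‖v‖ := by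
      calc ‖T‖⁻¹ * (‖f Φ i v‖ * ‖b‖) = ‖(S - T') v‖ := by
            rw [h1, norm_neg, norm_smul, norm_smul, hnormc]
        _ ≤ _ := (S - T').le_opNorm v
    calc ‖f Φ i v‖ = (‖T‖⁻¹ * (‖f Φ i v‖ * ‖b‖)) * (‖T‖ / ‖b‖) := by field_simp
      _ ≤ (‖S - T'‖ * ‖v‖) * (‖T‖ / ‖b‖) := by gcongr
      _ = ‖S - T'‖ * ‖T‖ / ‖b‖ * ‖v‖ := by ring
  rw [le_div_iff₀ hb0, one_mul] at hfinal
  have hlt : ‖S - T'‖ < ε := hST.trans_le ((min_le_left _ _).trans (min_le_left _ _))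
  have h1 : ‖S - T'‖ * ‖T‖ ≤ ‖S - T'‖ := mul_le_of_le_one_right (norm_nonneg _) hT1
  linarith

end Main

theorem real_case {X : Type u} [NormedAddCommGroup X] [NormedSpace ℝ X] [CompleteSpace X]
    {Y : Type v} [NormedAddCommGroup Y] [NormedSpace ℝ Y]
    (hX : IsEllOnePredual ℝ X) (h : CompactBPBpRSE ℝ X Y) : IsUniformlyConvex Y := by
  intro ε hε
  obtain ⟨δ, hδ, hδ1, H⟩ := key hX h (ε / 2) (by positivity)
  refine ⟨δ, hδ, hδ1, fun y₁ y₂ hy₁ hy₂ hlt => ?_⟩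
  by_contra hcon
  push Not at hcon
  have h1 := H ((1 / 2 : ℝ) • (y₁ + y₂)) ((1 / 2 : ℝ) • (y₁ - y₂)) ?_ ?_
  · rw [norm_smul] at h1
    norm_num at h1
    linarith
  · intro w hw
    rw [Real.norm_eq_abs, abs_le] at hw
    have h2 : (1 / 2 : ℝ) • (y₁ + y₂) + w • (1 / 2 : ℝ) • (y₁ - y₂) =
        ((1 + w) / 2) • y₁ + ((1 - w) / 2) • y₂ := by
      module
    rw [h2]
    calc ‖((1 + w) / 2) • y₁ + ((1 - w) / 2) • y₂‖
        ≤ ‖((1 + w) / 2) • y₁‖ + ‖((1 - w) / 2) • y₂‖ := norm_add_le _ _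
      _ = (1 + w) / 2 + (1 - w) / 2 := by
          rw [norm_smul, norm_smul, hy₁, hy₂, Real.norm_eq_abs, Real.norm_eq_abs,
            abs_of_nonneg (by linarith [hw.1]), abs_of_nonneg (by linarith [hw.2])]
          ring
      _ = 1 := by ring
  · rw [norm_smul]
    norm_num
    linarith

theorem complex_case {X : Type u} [NormedAddCommGroup X] [NormedSpace ℂ X] [CompleteSpace X]
    {Y : Type v} [NormedAddCommGroup Y] [NormedSpace ℂ Y]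
    (hX : IsEllOnePredual ℂ X) (h : CompactBPBpRSE ℂ X Y) : IsComplexUniformlyConvex Y := by
  intro ε hε
  obtain ⟨δ, hδ, hδ1, H⟩ := key hX h ε hε
  refine ⟨δ, hδ, fun y₀ y₁ hy hlt => ?_⟩
  refine H y₀ y₁ ?_ hlt.le
  intro w hw
  have h1 : ‖(1 : ℂ) • y₀ + w • y₁‖ ≤ 1 := by
    -- convexity in `w`
    obtain ⟨u, hu, hsu⟩ : ∃ u : ℂ, ‖u‖ = 1 ∧ w = ((‖w‖ : ℝ) : ℂ) * u := by
      by_cases h0 : w = 0
      · exact ⟨1, norm_one, by rw [h0]; simp⟩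
      · have h0' : ‖w‖ ≠ 0 := norm_ne_zero_iff.2 h0
        have h0'' : ((‖w‖ : ℝ) : ℂ) ≠ 0 := by exact_mod_cast h0'
        refine ⟨((‖w‖ : ℝ) : ℂ)⁻¹ * w, ?_, ?_⟩
        · rw [norm_mul, norm_inv, Complex.norm_real, norm_norm, inv_mul_cancel₀ h0']
        · rw [← mul_assoc, mul_inv_cancel₀ h0'', one_mul]
    have h3 : (1 : ℂ) • y₀ + w • y₁ = (((1 + ‖w‖) / 2 : ℝ) : ℂ) • (y₀ + u • y₁) +
        (((1 - ‖w‖) / 2 : ℝ) : ℂ) • (y₀ + (-u) • y₁) := by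
      have h5 : w • y₁ = (((‖w‖ : ℝ) : ℂ) * u) • y₁ := by rw [← hsu]
      rw [h5]
      push_cast
      module
    rw [h3]
    have h4 := hy u hu
    have h6 := hy (-u) (by rw [norm_neg, hu])
    have hn := norm_nonneg w
    calc ‖(((1 + ‖w‖) / 2 : ℝ) : ℂ) • (y₀ + u • y₁) +
          (((1 - ‖w‖) / 2 : ℝ) : ℂ) • (y₀ + (-u) • y₁)‖
        ≤ ‖(((1 + ‖w‖) / 2 : ℝ) : ℂ) • (y₀ + u • y₁)‖ +
          ‖(((1 - ‖w‖) / 2 : ℝ) : ℂ) • (y₀ + (-u) • y₁)‖ := norm_add_le _ _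
      _ = (1 + ‖w‖) / 2 * ‖y₀ + u • y₁‖ + (1 - ‖w‖) / 2 * ‖y₀ + (-u) • y₁‖ := by
          rw [norm_smul, norm_smul, Complex.norm_real, Complex.norm_real, Real.norm_eq_abs,
            Real.norm_eq_abs, abs_of_nonneg (by linarith), abs_of_nonneg (by linarith)]
      _ ≤ (1 + ‖w‖) / 2 * 1 + (1 - ‖w‖) / 2 * 1 := by
          gcongr
      _ = 1 := by ring
  rwa [one_smul] at h1

theorem result :
    (∀ (X : Type u) [NormedAddCommGroup X] [NormedSpace ℝ X] [CompleteSpace X]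
      (Y : Type v) [NormedAddCommGroup Y] [NormedSpace ℝ Y] [CompleteSpace Y],
      IsEllOnePredual ℝ X → CompactBPBpRSE ℝ X Y → IsUniformlyConvex Y) ∧
    (∀ (X : Type u) [NormedAddCommGroup X] [NormedSpace ℂ X] [CompleteSpace X]
      (Y : Type v) [NormedAddCommGroup Y] [NormedSpace ℂ Y] [CompleteSpace Y],
      IsEllOnePredual ℂ X → CompactBPBpRSE ℂ X Y → IsComplexUniformlyConvex Y) :=
  ⟨fun _ _ _ _ _ _ _ _ hX h => real_case hX h, fun _ _ _ _ _ _ _ _ hX h => complex_case hX h⟩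

end Pool.Agent.Results.MP_88a444_an.UniformConvexity
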